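import Pool.Agent.Y887.QK.StmD
import Pool.Agent.Y394.T2.Core

/-!
Job T2-COREY of helper887: the quantitative core of the sieve on the part `vv c x < Y` of the
modular hyperbola (adaptation of `Pool.Agent.Y394.T2.Core` by helper394).
-/

set_option autoImplicit false

namespace Pool.Agent.Y141.T2

open Finset Pool.Agent.Y887.QKS
open Pool.Agent.Y394.T2 (mem_pz few_large fl_bound card_OU_sq prod_sq_le)

section

variable {ℓ : ℕ} {c : (ZMod ℓ)ˣ} {Y κ Ex : ℕ} {ι : Type} [Fintype ι]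
  {V : ι → (ZMod ℓ)ˣ → ℕ} {Ω : ι → (p : ℕ) → Finset (ZMod p × ZMod p)}

lemma dvd_iff (hS : SysY ℓ c Y κ Ex ι V Ω) {p : ℕ} (hp : p.Prime) (hpl : p < ℓ) (x : (ZMod ℓ)ˣ)
    (hx : vv c x < Y) : p ∣ ∏ i, V i x ↔ ((bv x : ZMod p), (vv c x : ZMod p)) ∈ OU Ω p := by
  unfold OU
  rw [mem_biUnion, Prime.dvd_finsetProd_iff hp.prime]
  constructor
  · rintro ⟨i, hi, h⟩
    exact ⟨i, hi, (hS.iff i p hp hpl x hx).1 h⟩
  · rintro ⟨i, hi, h⟩
    exact ⟨i, hi, (hS.iff i p hp hpl x hx).2 h⟩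

lemma card_OU_le (hS : SysY ℓ c Y κ Ex ι V Ω) {p : ℕ} (hp : p.Prime) :
    (OU Ω p).card ≤ 2 * κ * p := by
  unfold OU
  refine card_biUnion_le.trans ((sum_le_sum fun i _ => hS.two i p hp).trans ?_)
  rw [sum_const, card_univ, hS.card, smul_eq_mul]
  exact le_of_eq (by ring)

lemma g_bound (hS : SysY ℓ c Y κ Ex ι V Ω) {p : ℕ} (hp : p.Prime) :
    0 ≤ ((OU Ω p).card : ℝ) / (p : ℝ) ^ 2 ∧ ((OU Ω p).card : ℝ) / (p : ℝ) ^ 2 ≤ 1 / 2 ∧
      ((OU Ω p).card : ℝ) / (p : ℝ) ^ 2 ≤ ((2 * κ : ℕ) : ℝ) / (p : ℝ) := by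
  have hp0 : (0 : ℝ) < p := by exact_mod_cast hp.pos
  have h1 : ((OU Ω p).card : ℝ) / (p : ℝ) ^ 2 ≤ ((2 * κ : ℕ) : ℝ) / (p : ℝ) := by
    rw [div_le_div_iff₀ (by positivity) hp0]
    have h2 : ((OU Ω p).card : ℝ) ≤ ((2 * κ * p : ℕ) : ℝ) := by exact_mod_cast card_OU_le hS hp
    push_cast at h2 ⊢
    nlinarith
  refine ⟨by positivity, ?_, h1⟩
  rcases le_or_gt p (4 * κ) with h | h
  · have h3 : OU Ω p = ∅ := by
      rw [eq_empty_iff_forall_notMem]
      intro y hy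
      obtain ⟨i, -, hi⟩ := mem_biUnion.1 hy
      rw [hS.small i p hp h] at hi
      exact notMem_empty _ hi
    rw [h3, card_empty, Nat.cast_zero, zero_div]
    norm_num
  · refine h1.trans ?_
    rw [div_le_div_iff₀ hp0 (by norm_num)]
    have h4 : (4 : ℝ) * κ < p := by exact_mod_cast h
    push_cast
    linarith

variable [Fact ℓ.Prime]

/-- the remainders of the first sieve -/
lemma rem1 (hcnt : S_cntY) (hS : SysY ℓ c Y κ Ex ι V Ω) {z B1 s : ℕ} (h6 : z ^ (B1 * (2 * κ)) ≤ s)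
    (hzs : z ≤ s) (hsl : s < ℓ) (U : Finset ℕ) (hUz : U ⊆ pz z)
    (hU : ∏ p ∈ U, p ≤ z ^ (B1 * (2 * κ))) :
    |((((univ : Finset (ZMod ℓ)ˣ).filter (fun x => vv c x < Y)).filter
        (fun x => ∀ p ∈ U, p ∣ ∏ i, V i x)).card : ℝ) -
        Y * ∏ p ∈ U, (((OU Ω p).card : ℝ) / (p : ℝ) ^ 2)| ≤
      (z : ℝ) ^ (4 * κ * B1) * (8 * Real.sqrt ℓ * (1 + Real.log ℓ) ^ 2) := by
  have hUp : ∀ p ∈ U, p.Prime := fun p hp => (mem_pz.1 (hUz hp)).2
  have h1 := hcnt ℓ c Y hS.leY U hUp (by omega) (OU Ω)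
  have h2 : ((univ : Finset (ZMod ℓ)ˣ).filter (fun x => vv c x < Y)).filter
        (fun x => ∀ p ∈ U, p ∣ ∏ i, V i x) =
      (univ : Finset (ZMod ℓ)ˣ).filter (fun x : (ZMod ℓ)ˣ => vv c x < Y ∧
        ∀ p ∈ U, ((bv x : ZMod p), (vv c x : ZMod p)) ∈ OU Ω p) := by
    rw [filter_filter]
    apply filter_congr
    intro x _
    refine and_congr_right fun hx => ?_
    refine forall₂_congr fun p hp => dvd_iff hS (hUp p hp) ?_ x hx
    have := (mem_pz.1 (hUz hp)).1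
    omega
  rw [h2]
  refine h1.trans (mul_le_mul_of_nonneg_right (prod_sq_le hU hUp) (by positivity))

/-- the remainders of the second sieve -/
lemma rem2 (hcnt : S_cntY) (hS : SysY ℓ c Y κ Ex ι V Ω) {z B1 s : ℕ} (h6 : z ^ (B1 * (2 * κ)) ≤ s)
    (hzs : z ≤ s) (hsl : s * s < ℓ) (hs1 : 1 ≤ s) (i : ι) {q : ℕ} (hq : q.Prime) (hzq : z < q)
    (hqs : q ≤ s) (U : Finset ℕ) (hUz : U ⊆ pz z) (hU : ∏ p ∈ U, p ≤ z ^ (B1 * (2 * κ))) :
    |(((((univ : Finset (ZMod ℓ)ˣ).filter (fun x => vv c x < Y)).filter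
        (fun x => q ∣ V i x)).filter (fun x => ∀ p ∈ U, p ∣ ∏ i, V i x)).card : ℝ) -
        (Y * (((Ω i q).card : ℝ) / (q : ℝ) ^ 2)) *
          ∏ p ∈ U, (((OU Ω p).card : ℝ) / (p : ℝ) ^ 2)| ≤
      (z : ℝ) ^ (4 * κ * B1) * (2 * q * (8 * Real.sqrt ℓ * (1 + Real.log ℓ) ^ 2)) := by
  have hUp : ∀ p ∈ U, p.Prime := fun p hp => (mem_pz.1 (hUz hp)).2
  have hqU : q ∉ U := fun h => by
    have := (mem_pz.1 (hUz h)).1
    omega
  have hsl' : s < ℓ := by nlinarith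
  let Ω' : (p : ℕ) → Finset (ZMod p × ZMod p) := fun p => if p = q then Ω i p else OU Ω p
  have hq' : Ω' q = Ω i q := if_pos rfl
  have hp' : ∀ p ∈ U, Ω' p = OU Ω p := fun p hp => if_neg (by rintro rfl; exact hqU hp)
  have h0 : ∏ p ∈ insert q U, p < ℓ := by
    rw [prod_insert hqU]
    calc q * ∏ p ∈ U, p ≤ s * s := Nat.mul_le_mul hqs (hU.trans h6)
      _ < ℓ := hsl
  have h1 := hcnt ℓ c Y hS.leY (insert q U) (by
    intro p hp
    rcases mem_insert.1 hp with rfl | h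
    · exact hq
    · exact hUp p h) h0 Ω'
  have h2 : (((univ : Finset (ZMod ℓ)ˣ).filter (fun x => vv c x < Y)).filter
        (fun x => q ∣ V i x)).filter (fun x => ∀ p ∈ U, p ∣ ∏ i, V i x) =
      (univ : Finset (ZMod ℓ)ˣ).filter (fun x : (ZMod ℓ)ˣ => vv c x < Y ∧
        ∀ p ∈ insert q U, ((bv x : ZMod p), (vv c x : ZMod p)) ∈ Ω' p) := by
    rw [filter_filter, filter_filter]
    apply filter_congr
    intro x _
    refine and_congr_right fun hx => ?_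
    rw [forall_mem_insert, hq', hS.iff i q hq (by omega) x hx]
    refine and_congr_right fun _ => ?_
    refine forall₂_congr fun p hp => ?_
    rw [hp' p hp]
    refine dvd_iff hS (hUp p hp) ?_ x hx
    have := (mem_pz.1 (hUz hp)).1
    omega
  have h3 : ∏ p ∈ insert q U, (((Ω' p).card : ℝ) / (p : ℝ) ^ 2) =
      (((Ω i q).card : ℝ) / (q : ℝ) ^ 2) * ∏ p ∈ U, (((OU Ω p).card : ℝ) / (p : ℝ) ^ 2) := by
    rw [prod_insert hqU, hq']
    congr 1
    exact prod_congr rfl fun p hp => by rw [hp' p hp]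
  have h4 : ∏ p ∈ insert q U, ((Ω' p).card : ℝ) ≤ (2 * q) * (z : ℝ) ^ (4 * κ * B1) := by
    have h5 : ∏ p ∈ U, ((Ω' p).card : ℝ) = ∏ p ∈ U, ((OU Ω p).card : ℝ) :=
      prod_congr rfl fun p hp => by rw [hp' p hp]
    rw [prod_insert hqU, hq', h5]
    have h6 : ((Ω i q).card : ℝ) ≤ 2 * q := by exact_mod_cast hS.two i q hq
    exact mul_le_mul h6 (prod_sq_le hU hUp) (prod_nonneg fun _ _ => Nat.cast_nonneg _)
      ((Nat.cast_nonneg _).trans h6)
  have hE : 0 ≤ 8 * Real.sqrt ℓ * (1 + Real.log ℓ) ^ 2 := by positivity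
  rw [h3] at h1
  rw [h2, mul_assoc]
  refine h1.trans ((mul_le_mul_of_nonneg_right h4 hE).trans (le_of_eq ?_))
  ring

end

set_option maxHeartbeats 2000000 in
open Classical in
/-- the sieve, quantitative core, restricted second coordinate -/
theorem t_coreY (hcnt : S_cntY) (B1 L : ℕ) (hFL : S_FL B1) (hrec : S_rec L) :
    S_coreY B1 L := by
  intro Ex κ ℓ Y J n s R1 _ c ι _ V Ω hS h1 h2 h3 h4 h5 h6 h7 h8
  obtain ⟨z, hz⟩ : ∃ z : ℕ, z = 2 ^ 2 ^ J := ⟨_, rfl⟩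
  rw [← hz] at h1 h6 h7 ⊢
  have hz2 : 2 ≤ z := by
    rw [hz]
    calc 2 = 2 ^ 1 := by norm_num
      _ ≤ 2 ^ 2 ^ J := Nat.pow_le_pow_right (by norm_num) Nat.one_le_two_pow
  have hκ := hS.pos
  have hκr : (1 : ℝ) ≤ κ := by exact_mod_cast hκ
  have hs1 : 1 ≤ s := le_trans Nat.one_le_two_pow h4
  have hs2 : 2 ≤ s := hz2.trans h1
  have hssl : s * s < ℓ := by
    refine lt_of_lt_of_le ?_ h2
    calc s * s = s ^ 2 := by ring
      _ < s ^ 16 := Nat.pow_lt_pow_right (by omega) (by norm_num)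
  have hsl : s < ℓ := by nlinarith
  have h6' : z ^ (B1 * (2 * κ)) ≤ s := by
    rw [mul_comm]
    exact h6
  obtain ⟨E0, hE0⟩ : ∃ E0 : ℝ, E0 = 8 * Real.sqrt ℓ * (1 + Real.log ℓ) ^ 2 := ⟨_, rfl⟩
  have hE00 : 0 ≤ E0 := by rw [hE0]; positivity
  obtain ⟨W, hW⟩ : ∃ W : ℝ, W = Wd Ω Y z := ⟨_, rfl⟩
  obtain ⟨T, hT⟩ : ∃ T : Finset (ZMod ℓ)ˣ, T = (univ : Finset (ZMod ℓ)ˣ).filter (fun x => vv c x < Y) := ⟨_, rfl⟩
  have hTm : ∀ x ∈ T, vv c x < Y := fun x hx => by rw [hT, mem_filter] at hx; exact hx.2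
  obtain ⟨D, hD⟩ : ∃ D : ℝ, D = Del ℓ z κ B1 := ⟨_, rfl⟩
  have hD' : D = 2 * (((Nat.log 2 z : ℝ) + 2) * ((z : ℝ) ^ (6 * κ * B1) * E0)) := by
    rw [hD, Del, ← hE0]
    ring
  have hD0 : 0 ≤ D := by rw [hD']; positivity
  rw [← hW, ← hD] at h7
  rw [← hW]
  have hsr : (1 : ℝ) ≤ s := by exact_mod_cast hs1
  have hs2D : 0 ≤ (s : ℝ) ^ 2 * D := by positivity
  have hW0 : 0 ≤ W := by linarith
  have hDW : D ≤ W / 64 := by
    have : 1 * D ≤ (s : ℝ) ^ 2 * D := by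
      apply mul_le_mul_of_nonneg_right _ hD0
      nlinarith
    linarith
  have hsDW : (s : ℝ) ^ 2 * D ≤ W / 64 := by linarith
  -- the first sieve
  set S := T.filter (fun x => ∀ p ∈ pz z, ¬ p ∣ ∏ i, V i x) with hSd
  have hSc := fl_bound hFL hκ z hz2 (fun p => ((OU Ω p).card : ℝ) / (p : ℝ) ^ 2)
    (fun p hp => g_bound hS (mem_pz.1 hp).2) T (fun x => ∏ i, V i x)
    (Y : ℝ) E0 (Nat.cast_nonneg _) hE00 (fun U hUz hU => by
      rw [hE0, hT]
      exact rem1 hcnt hS h6' h1 hsl U hUz hU)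
  have hWd : (Y : ℝ) * ∏ p ∈ pz z, (1 - ((OU Ω p).card : ℝ) / (p : ℝ) ^ 2) = W := by
    rw [hW, Wd]
  rw [hWd] at hSc
  have hSc' : |(S.card : ℝ) - W| ≤ 1 / 4 * W + D / 2 := by
    refine le_trans (le_of_eq ?_) (hSc.trans (le_of_eq ?_))
    · rw [hSd]
    · rw [hD']; ring
  have hS1 : (S.card : ℝ) ≤ 5 / 4 * W + W / 64 := by
    have := (abs_le.1 hSc').2
    linarith
  have hS2 : 3 / 4 * W - W / 64 ≤ (S.card : ℝ) := by
    have := (abs_le.1 hSc').1
    linarith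
  have hrough : ∀ x ∈ S, ∀ i, ∀ p : ℕ, p.Prime → p ∣ V i x → z < p := by
    intro x hx i p hp hpd
    by_contra hcon
    push Not at hcon
    exact (mem_filter.1 hx).2 p (mem_pz.2 ⟨hcon, hp⟩)
      (hpd.trans (dvd_prod_of_mem (fun i => V i x) (mem_univ i)))
  -- the prime factors
  set Pq := (Ioc z s).filter Nat.Prime with hPq
  have hPq' : ∀ q ∈ Pq, q.Prime ∧ z < q ∧ q ≤ s := by
    intro q hq
    rw [hPq, mem_filter, mem_Ioc] at hq
    exact ⟨hq.2, hq.1.1, hq.1.2⟩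
  have hrec' : ∑ q ∈ Pq, (1 : ℝ) / q ≤ L * n := by
    apply hrec J n
    intro q hq
    obtain ⟨g1, g2, g3⟩ := hPq' q hq
    refine ⟨g1, by rw [← hz]; exact g2, lt_of_le_of_lt (g3.trans hsl.le) h5⟩
  have hω : ∀ x ∈ S, ∀ i, (V i x).primeFactors.card ≤
      (Pq.filter (fun q => q ∣ V i x)).card + 17 * Ex := by
    intro x hx i
    obtain ⟨hne, hle⟩ := hS.size i x (hTm x (mem_filter.1 hx).1)
    have g1 := card_filter_add_card_filter_not (s := (V i x).primeFactors) (fun q => s < q)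
    have g3 := few_large (n := V i x) (by omega) hle h3 h4
    have g4 : ((V i x).primeFactors.filter (fun q => ¬ s < q)).card ≤
        (Pq.filter (fun q => q ∣ V i x)).card := by
      apply card_le_card
      intro q hq
      rw [mem_filter, Nat.mem_primeFactors] at hq
      rw [mem_filter, hPq, mem_filter, mem_Ioc]
      exact ⟨⟨⟨hrough x hx i q hq.1.1 hq.1.2.1, by omega⟩, hq.1.1⟩, hq.1.2.1⟩
    omega
  have hqcount : ∀ i, ∀ q ∈ Pq, ((S.filter (fun x => q ∣ V i x)).card : ℝ) ≤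
      5 / 2 * W * (1 / q) + s * D := by
    intro i q hq
    obtain ⟨hqp, hzq, hqs⟩ := hPq' q hq
    have hqr : (0 : ℝ) < q := by exact_mod_cast hqp.pos
    have g1 : S.filter (fun x => q ∣ V i x) =
        (T.filter (fun x => q ∣ V i x)).filter
          (fun x => ∀ p ∈ pz z, ¬ p ∣ ∏ i, V i x) := by
      rw [hSd, filter_filter, filter_filter]
      exact filter_congr fun x _ => and_comm
    have g2 := fl_bound hFL hκ z hz2 (fun p => ((OU Ω p).card : ℝ) / (p : ℝ) ^ 2)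
      (fun p hp => g_bound hS (mem_pz.1 hp).2)
      (T.filter (fun x => q ∣ V i x)) (fun x => ∏ i, V i x)
      (Y * (((Ω i q).card : ℝ) / (q : ℝ) ^ 2)) (2 * q * E0) (by positivity) (by positivity)
      (fun U hUz hU => by
        rw [hE0, hT]
        exact rem2 hcnt hS h6' h1 hssl hs1 i hqp hzq hqs U hUz hU)
    have g3 : (Y * (((Ω i q).card : ℝ) / (q : ℝ) ^ 2)) *
        ∏ p ∈ pz z, (1 - ((OU Ω p).card : ℝ) / (p : ℝ) ^ 2) =
        W * (((Ω i q).card : ℝ) / (q : ℝ) ^ 2) := by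
      rw [← hWd]
      ring
    rw [g3] at g2
    have g4 := (abs_le.1 g2).2
    have g5 : ((Ω i q).card : ℝ) / (q : ℝ) ^ 2 ≤ 2 * (1 / q) := by
      rw [mul_one_div, div_le_div_iff₀ (by positivity) hqr]
      have : ((Ω i q).card : ℝ) ≤ 2 * q := by exact_mod_cast hS.two i q hqp
      nlinarith
    have g6 : W * (((Ω i q).card : ℝ) / (q : ℝ) ^ 2) ≤ W * (2 * (1 / q)) :=
      mul_le_mul_of_nonneg_left g5 hW0
    have g7 : ((Nat.log 2 z : ℝ) + 2) * ((z : ℝ) ^ (6 * κ * B1) * (2 * q * E0)) = q * D := by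
      rw [hD']; ring
    have g8 : (q : ℝ) * D ≤ s * D :=
      mul_le_mul_of_nonneg_right (by exact_mod_cast hqs) hD0
    rw [g7] at g4
    rw [g1]
    have g9 : (((T.filter (fun x => q ∣ V i x)).filter
          (fun x => ∀ p ∈ pz z, ¬ p ∣ ∏ i, V i x)).card : ℝ) ≤
        W * (((Ω i q).card : ℝ) / (q : ℝ) ^ 2) +
          (1 / 4 * (W * (((Ω i q).card : ℝ) / (q : ℝ) ^ 2)) + q * D) := by
      linarith
    linarith
  have hPqc : (Pq.card : ℝ) ≤ s := by
    have : Pq.card ≤ s := (card_filter_le _ _).trans (by rw [Nat.card_Ioc]; omega)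
    exact_mod_cast this
  have hR1r : 10 * ((L : ℝ) * n) + 88 * Ex + 1 ≤ R1 := by exact_mod_cast h8
  have hExr : (0 : ℝ) ≤ (Ex : ℝ) := Nat.cast_nonneg _
  have hLn : (0 : ℝ) ≤ (L : ℝ) * n := by positivity
  have hsum : (∑ x ∈ S, ∑ i, ((V i x).primeFactors.card : ℝ)) ≤
      κ * (5 / 2 * W * (L * n) + (s : ℝ) ^ 2 * D) + 17 * Ex * κ * S.card := by
    calc (∑ x ∈ S, ∑ i, ((V i x).primeFactors.card : ℝ))
        ≤ ∑ x ∈ S, ∑ i, (((Pq.filter (fun q => q ∣ V i x)).card : ℝ) + 17 * Ex) := by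
          refine sum_le_sum fun x hx => sum_le_sum fun i _ => ?_
          exact_mod_cast hω x hx i
      _ = (∑ i, ∑ q ∈ Pq, ((S.filter (fun x => q ∣ V i x)).card : ℝ)) +
          17 * Ex * κ * S.card := by
          simp only [sum_add_distrib, sum_const, nsmul_eq_mul]
          congr 1
          · rw [sum_comm]
            refine sum_congr rfl fun i _ => ?_
            simp only [card_filter, Nat.cast_sum]
            rw [sum_comm]
          · rw [card_univ, hS.card]; ring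
      _ ≤ (∑ _i : ι, (5 / 2 * W * (L * n) + (s : ℝ) ^ 2 * D)) + 17 * Ex * κ * S.card := by
          refine add_le_add (sum_le_sum fun i _ => ?_) le_rfl
          calc ∑ q ∈ Pq, ((S.filter (fun x => q ∣ V i x)).card : ℝ)
              ≤ ∑ q ∈ Pq, (5 / 2 * W * (1 / q) + s * D) :=
                sum_le_sum fun q hq => hqcount i q hq
            _ = 5 / 2 * W * ∑ q ∈ Pq, (1 : ℝ) / q + Pq.card * (s * D) := by
                rw [sum_add_distrib, sum_const, nsmul_eq_mul, mul_sum]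
            _ ≤ 5 / 2 * W * (L * n) + s * (s * D) := by
                refine add_le_add (mul_le_mul_of_nonneg_left hrec' (by positivity))
                  (mul_le_mul_of_nonneg_right hPqc (by positivity))
            _ ≤ _ := le_of_eq (by ring)
      _ = _ := by
          rw [sum_const, nsmul_eq_mul, card_univ, hS.card]
  -- the bad arguments
  have hbad : ((S.filter (fun x => ¬ ∑ i, (V i x).primeFactors.card ≤ κ * R1)).card : ℝ) *
      (κ * R1) ≤ κ * (5 / 2 * W * (L * n) + (s : ℝ) ^ 2 * D) + 17 * Ex * κ * S.card := by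
    refine le_trans ?_ hsum
    calc ((S.filter (fun x => ¬ ∑ i, (V i x).primeFactors.card ≤ κ * R1)).card : ℝ) *
        (κ * R1) = ∑ _x ∈ S.filter (fun x => ¬ ∑ i, (V i x).primeFactors.card ≤ κ * R1),
          ((κ : ℝ) * R1) := by rw [sum_const, nsmul_eq_mul]
      _ ≤ ∑ x ∈ S.filter (fun x => ¬ ∑ i, (V i x).primeFactors.card ≤ κ * R1),
          ∑ i, ((V i x).primeFactors.card : ℝ) := by
          refine sum_le_sum fun x hx => ?_
          have g1 := (mem_filter.1 hx).2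
          have g2 : κ * R1 ≤ ∑ i, (V i x).primeFactors.card := by omega
          exact_mod_cast g2
      _ ≤ _ := by
          apply sum_le_sum_of_subset_of_nonneg (filter_subset _ _)
          intro _ _ _
          exact sum_nonneg fun _ _ => Nat.cast_nonneg _
  obtain ⟨bd, hbdd⟩ : ∃ bd : ℝ, bd =
    ((S.filter (fun x => ¬ ∑ i, (V i x).primeFactors.card ≤ κ * R1)).card : ℝ) := ⟨_, rfl⟩
  rw [← hbdd] at hbad
  have hR0 : (0 : ℝ) < R1 := by
    have : (0 : ℝ) ≤ 88 * (Ex : ℝ) := by positivity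
    linarith
  have hbW : bd ≤ W / 4 := by
    have g1 : bd * R1 ≤ 5 / 2 * W * (L * n) + (s : ℝ) ^ 2 * D + 17 * Ex * S.card := by
      have g2 : κ * (bd * R1) ≤
          κ * (5 / 2 * W * (L * n) + (s : ℝ) ^ 2 * D + 17 * Ex * S.card) := by
        linarith
      exact le_of_mul_le_mul_left g2 (by linarith)
    have g5 : bd * R1 ≤ W / 4 * R1 := by
      have g6 : W / 4 * (10 * (L * n) + 88 * Ex + 1) ≤ W / 4 * R1 :=
        mul_le_mul_of_nonneg_left hR1r (by linarith)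
      have g8 : 17 * (Ex : ℝ) * S.card ≤ 17 * Ex * (5 / 4 * W + W / 64) :=
        mul_le_mul_of_nonneg_left hS1 (by positivity)
      have g9 : 0 ≤ (Ex : ℝ) * W := mul_nonneg hExr hW0
      have g10 : W / 4 * (10 * ((L : ℝ) * n) + 88 * Ex + 1) =
          5 / 2 * W * (L * n) + 22 * (Ex * W) + W / 4 := by ring
      have g11 : 17 * (Ex : ℝ) * (5 / 4 * W + W / 64) = (17 * (5 / 4 + 1 / 64)) * (Ex * W) := by
        ring
      rw [g11] at g8
      rw [g10] at g6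
      linarith
    exact le_of_mul_le_mul_right g5 hR0
  set G1 := S.filter (fun x => ∑ i, (V i x).primeFactors.card ≤ κ * R1) with hG1
  have hcard : (S.card : ℝ) ≤ G1.card + W / 4 := by
    have g1 := card_filter_add_card_filter_not (s := S)
      (fun x => ∑ i, (V i x).primeFactors.card ≤ κ * R1)
    have g2 : (S.card : ℝ) = G1.card + bd := by
      rw [hbdd, hG1]
      exact_mod_cast g1.symm
    linarith
  have hsubf : G1 ⊆
      (univ : Finset (ZMod ℓ)ˣ).filter (fun x => vv c x < Y ∧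
        ∑ i, (V i x).primeFactors.card ≤ κ * R1 ∧
        ∀ i, ∀ p : ℕ, p.Prime → p ∣ V i x → z < p) := by
    intro x hx
    rw [hG1, mem_filter] at hx
    rw [mem_filter]
    exact ⟨mem_univ _, hTm x (mem_filter.1 hx.1).1, hx.2, fun i p hp hpd => hrough x hx.1 i p hp hpd⟩
  have hfin2 : (G1.card : ℝ) ≤
      (((univ : Finset (ZMod ℓ)ˣ).filter (fun x => vv c x < Y ∧
        ∑ i, (V i x).primeFactors.card ≤ κ * R1 ∧
        ∀ i, ∀ p : ℕ, p.Prime → p ∣ V i x → z < p)).card : ℝ) := by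
    exact_mod_cast card_le_card hsubf
  refine le_trans ?_ hfin2
  linarith

end Pool.Agent.Y141.T2
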